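import Mathlib

set_option autoImplicit false

namespace Pool.Agent.Results.MP_55559b_an.NotPExposed

open Matrix

/-- `F` is a face of the cone `K`: a closed convex subcone with `x + y ∈ F → x, y ∈ F`. -/
def IsFace {n : ℕ} (K F : Set (Fin n → ℝ)) : Prop :=
  F ⊆ K ∧ IsClosed F ∧ Convex ℝ F ∧ (0 : Fin n → ℝ) ∈ F ∧
    (∀ t : ℝ, 0 ≤ t → ∀ x ∈ F, t • x ∈ F) ∧
    ∀ x ∈ K, ∀ y ∈ K, x + y ∈ F → x ∈ F ∧ y ∈ F

/-- The spectrahedral cone of the matrices `A 0, …, A (n-1)`. -/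
def spectra {n m : ℕ} (A : Fin n → Matrix (Fin m) (Fin m) ℝ) : Set (Fin n → ℝ) :=
  {x | (∑ i, x i • A i).PosSemidef}

def A : Fin 5 → Matrix (Fin 6) (Fin 6) ℝ :=
  ![!![1,0,0,0,0,0; 0,1,0,0,0,0; 0,0,1,0,0,0; 0,0,0,1,0,0; 0,0,0,0,1,0; 0,0,0,0,0,0],
    !![1,0,0,0,0,0; 0,-1,0,0,0,0; 0,0,0,0,0,0; 0,0,0,0,0,0; 0,0,0,0,0,0; 0,0,0,0,0,0],
    !![0,0,0,0,0,0; 0,0,0,0,0,0; 0,0,1,0,0,0; 0,0,0,-1,0,0; 0,0,0,0,0,0; 0,0,0,0,0,0],
    !![1,0,0,0,0,0; 0,1,0,0,0,0; 0,0,-1,0,0,0; 0,0,0,-1,0,0; 0,0,0,0,0,1; 0,0,0,0,1,0],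
    !![0,0,0,0,0,0; 0,0,0,0,0,0; 0,0,0,0,0,0; 0,0,0,0,0,0; 0,0,0,0,0,0; 0,0,0,0,0,1]]

lemma A_symm (i : Fin 5) : (A i).IsSymm := by
  fin_cases i <;> ext a b <;> fin_cases a <;> fin_cases b <;> rfl

def Q (x : Fin 5 → ℝ) (v : Fin 6 → ℝ) : ℝ :=
  (x 0 + x 3 + x 1) * v 0 ^ 2 + (x 0 + x 3 - x 1) * v 1 ^ 2 + (x 0 - x 3 + x 2) * v 2 ^ 2 +
    (x 0 - x 3 - x 2) * v 3 ^ 2 + (x 0 * v 4 ^ 2 + 2 * x 3 * v 4 * v 5 + x 4 * v 5 ^ 2)

lemma mem_K (x : Fin 5 → ℝ) : x ∈ spectra A ↔ ∀ v, 0 ≤ Q x v := by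
  have h1 : (∑ i, x i • A i).IsHermitian := by
    rw [Matrix.IsHermitian, conjTranspose_eq_transpose_of_trivial, transpose_sum]
    exact Finset.sum_congr rfl fun i _ => by rw [transpose_smul, (A_symm i).eq]
  have h2 : ∀ v : Fin 6 → ℝ, star v ⬝ᵥ (∑ i, x i • A i) *ᵥ v = Q x v := by
    intro v
    simp [A, Q, Fin.sum_univ_succ, dotProduct, mulVec]
    ring
  simp only [spectra, Set.mem_ofPred_eq, posSemidef_iff_dotProduct_mulVec, h1, h2, true_and]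

lemma Q_add (x y : Fin 5 → ℝ) (v : Fin 6 → ℝ) : Q (x + y) v = Q x v + Q y v := by
  simp only [Q, Pi.add_apply]; ring

lemma Q_smul (t : ℝ) (x : Fin 5 → ℝ) (v : Fin 6 → ℝ) : Q (t • x) v = t * Q x v := by
  simp only [Q, Pi.smul_apply, smul_eq_mul]; ring

lemma K4 {x : Fin 5 → ℝ} (hx : x ∈ spectra A) : 0 ≤ x 4 := by
  simpa [Q] using (mem_K x).mp hx ![0, 0, 0, 0, 0, 1]

lemma K3 {x : Fin 5 → ℝ} (hx : x ∈ spectra A) (h : x 4 = 0) : x 3 = 0 := by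
  by_contra h3
  have := (mem_K x).mp hx ![0, 0, 0, 0, 1, -(x 0 + 1) / (2 * x 3)]
  simp only [Q, h] at this
  simp at this
  have e : 2 * x 3 * ((-1 + -x 0) / (2 * x 3)) = -1 + -x 0 := by field_simp
  linarith

lemma Kd {x : Fin 5 → ℝ} (hx : x ∈ spectra A) : 0 ≤ x 0 + x 3 + x 1 ∧ 0 ≤ x 0 + x 3 - x 1 ∧
    0 ≤ x 0 - x 3 + x 2 ∧ 0 ≤ x 0 - x 3 - x 2 := by
  have h := (mem_K x).mp hx
  refine ⟨?_, ?_, ?_, ?_⟩
  · simpa [Q] using h ![1, 0, 0, 0, 0, 0]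
  · simpa [Q] using h ![0, 1, 0, 0, 0, 0]
  · simpa [Q] using h ![0, 0, 1, 0, 0, 0]
  · simpa [Q] using h ![0, 0, 0, 1, 0, 0]

lemma mk (a b e : ℝ) (h1 : 0 ≤ 1 + e + a) (h2 : 0 ≤ 1 + e - a) (h3 : 0 ≤ 1 - e + b)
    (h4 : 0 ≤ 1 - e - b) : (![1, a, b, e, e ^ 2] : Fin 5 → ℝ) ∈ spectra A := by
  rw [mem_K]
  intro v
  have : Q ![1, a, b, e, e ^ 2] v = (1 + e + a) * v 0 ^ 2 + (1 + e - a) * v 1 ^ 2 +
      (1 - e + b) * v 2 ^ 2 + (1 - e - b) * v 3 ^ 2 + (v 4 + e * v 5) ^ 2 := by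
    simp [Q]; ring
  rw [this]; positivity

theorem result :
    ∃ (n m : ℕ) (A : Fin n → Matrix (Fin m) (Fin m) ℝ) (F : Set (Fin n → ℝ)),
      (∀ i, (A i).IsSymm) ∧ IsFace (spectra A) F ∧
      ¬ ∃ P : (Fin n → ℝ) →ₗ[ℝ] (Fin n → ℝ), P ∘ₗ P = P ∧ P '' spectra A = F := by
  refine ⟨5, 6, A, {x | x ∈ spectra A ∧ x 3 = 0 ∧ x 4 = 0}, A_symm,
    ⟨fun x hx => hx.1, ?_, ?_, ?_, ?_, ?_⟩, ?_⟩
  · simp only [mem_K, Set.ofPred_and, Set.ofPred_forall]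
    refine (isClosed_iInter fun v => isClosed_le continuous_const ?_).inter
      ((isClosed_eq (continuous_apply 3) continuous_const).inter
        (isClosed_eq (continuous_apply 4) continuous_const))
    unfold Q; fun_prop
  · rintro x ⟨h1, h2, h3⟩ y ⟨g1, g2, g3⟩ a b ha hb _
    refine ⟨(mem_K _).mpr fun v => ?_, by simp [h2, g2], by simp [h3, g3]⟩
    rw [Q_add, Q_smul, Q_smul]
    have := (mem_K _).mp h1 v
    have := (mem_K _).mp g1 v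
    positivity
  · exact ⟨(mem_K _).mpr fun v => by simp [Q], rfl, rfl⟩
  · rintro t ht x ⟨h1, h2, h3⟩
    refine ⟨(mem_K _).mpr fun v => ?_, by simp [h2], by simp [h3]⟩
    rw [Q_smul]
    exact mul_nonneg ht ((mem_K _).mp h1 v)
  · rintro x hx y hy ⟨-, -, h⟩
    have h' : x 4 + y 4 = 0 := h
    have hx4 : x 4 = 0 := by linarith [K4 hx, K4 hy]
    have hy4 : y 4 = 0 := by linarith [K4 hx, K4 hy]
    exact ⟨⟨hx, K3 hx hx4, hx4⟩, hy, K3 hy hy4, hy4⟩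
  · rintro ⟨P, hP, hF⟩
    have fix : ∀ a b : ℝ, |a| ≤ 1 → |b| ≤ 1 → P ![1, a, b, 0, 0] = ![1, a, b, 0, 0] := by
      intro a b ha hb
      rw [abs_le] at ha hb
      have : (![1, a, b, 0, 0] : Fin 5 → ℝ) ∈ P '' spectra A := by
        rw [hF]
        refine ⟨?_, rfl, rfl⟩
        simpa using mk a b 0 (by linarith) (by linarith) (by linarith) (by linarith)
      obtain ⟨k, -, hk⟩ := this
      rw [← hk]
      exact LinearMap.congr_fun hP k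
    set p := P ![0, 0, 0, 1, 0]
    set q := P ![0, 0, 0, 0, 1]
    have dec : ∀ a b e : ℝ, P ![1, a, b, e, e ^ 2] = ![1, a, b, 0, 0] + e • p + e ^ 2 • q := by
      intro a b e
      have e1 : (![1, a, b, e, e ^ 2] : Fin 5 → ℝ) = (1 - a - b) • ![1, 0, 0, 0, 0] +
          a • ![1, 1, 0, 0, 0] + b • ![1, 0, 1, 0, 0] + e • ![0, 0, 0, 1, 0] +
          e ^ 2 • ![0, 0, 0, 0, 1] := by
        ext i; fin_cases i <;> simp
        ring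
      rw [e1]
      simp only [map_add, map_smul, fix 0 0 (by simp) (by simp), fix 1 0 (by simp) (by simp),
        fix 0 1 (by simp) (by simp)]
      congr 2
      ext i; fin_cases i <;> simp
      ring
    have inF : ∀ a b e : ℝ, 0 ≤ 1 + e + a → 0 ≤ 1 + e - a → 0 ≤ 1 - e + b → 0 ≤ 1 - e - b →
        0 ≤ (1 + e * p 0 + e ^ 2 * q 0) + (a + e * p 1 + e ^ 2 * q 1) ∧
        0 ≤ (1 + e * p 0 + e ^ 2 * q 0) - (a + e * p 1 + e ^ 2 * q 1) ∧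
        0 ≤ (1 + e * p 0 + e ^ 2 * q 0) + (b + e * p 2 + e ^ 2 * q 2) ∧
        0 ≤ (1 + e * p 0 + e ^ 2 * q 0) - (b + e * p 2 + e ^ 2 * q 2) := by
      intro a b e h1 h2 h3 h4
      have : P ![1, a, b, e, e ^ 2] ∈ P '' spectra A := ⟨_, mk a b e h1 h2 h3 h4, rfl⟩
      rw [hF] at this
      have h5 := Kd this.1
      rw [this.2.1, dec] at h5
      simpa [-Matrix.cons_add] using h5
    obtain ⟨e, he, he1, he2⟩ : ∃ e : ℝ, 0 < e ∧ e ≤ 1 ∧ e * q 0 < 1 := by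
      refine ⟨1 / (|q 0| + 1), by positivity, ?_, ?_⟩
      · rw [div_le_one (by positivity)]; linarith [abs_nonneg (q 0)]
      · rw [div_mul_eq_mul_div, div_lt_one (by positivity)]; linarith [le_abs_self (q 0)]
    have a1 := (inF (1 + e) 0 e (by linarith) (by linarith) (by linarith) (by linarith)).2.1
    have a2 := (inF (-(1 + e)) 0 e (by linarith) (by linarith) (by linarith) (by linarith)).1
    have a3 := (inF 0 (1 + e) (-e) (by linarith) (by linarith) (by linarith) (by linarith)).2.2.2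
    have a4 := (inF 0 (-(1 + e)) (-e) (by linarith) (by linarith) (by linarith)
      (by linarith)).2.2.1
    nlinarith

end Pool.Agent.Results.MP_55559b_an.NotPExposed
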